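import Pool.Agent.H39.HP.Sub

/-! Heights and central values: primitive fields suffice. -/

set_option autoImplicit false
set_option linter.unusedSectionVars false

namespace Pool.Agent.H39.HP

open Module NumberField IsDedekindDomain Polynomial Pool.Agent.W353.NF Pool.Agent.W401.Cheb
open Pool.Agent.Q5.BR Pool.Agent.Q5.RG Pool.Agent.Q5.VL
open Pool.Agent.H39.Ht
open Pool.Agent.H67.Primitive
open Pool.Agent.H46.OP (Suffices)
open Pool.Agent.W353.EF (LFun)
open scoped Classical

section
variable {K : Type} [Field K] [NumberField K]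

/-- the vectors fixed by a normal subgroup are stable -/
theorem inv_stable (N' : IntermediateField K (AlgebraicClosure K)) [Normal K N'] (A : GVec ℚ (GK K))
    (g : GK K) (y : A.car) (hy : y ∈ inv A.act (stabE N'.val)) :
    A.act g y ∈ inv A.act (stabE N'.val) := by
  intro σ hσ
  have h1 : g⁻¹ * σ * g ∈ stabE N'.val := by
    intro x
    change g.symm (σ (g (x : AlgebraicClosure K))) = x
    have h2 : g (x : AlgebraicClosure K) ∈ N' := by
      have h3 : ((g : AlgebraicClosure K →ₐ[K] AlgebraicClosure K).comp N'.val).fieldRange = N' :=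
        AlgHom.fieldRange_of_normal _
      have h4 : (g : AlgebraicClosure K →ₐ[K] AlgebraicClosure K).comp N'.val x ∈
          ((g : AlgebraicClosure K →ₐ[K] AlgebraicClosure K).comp N'.val).fieldRange := ⟨x, rfl⟩
      rw [h3] at h4
      exact h4
    have h5 : σ (g (x : AlgebraicClosure K)) = g (x : AlgebraicClosure K) := hσ ⟨_, h2⟩
    rw [h5]
    exact g.symm_apply_apply _
  have h7 := hy _ h1
  rw [rho_mul, rho_mul] at h7
  have h8 := congrArg (A.act g) h7
  rw [← rho_mul A.act g g⁻¹, mul_inv_cancel, map_one] at h8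
  exact h8

theorem mem_inv_of_fix (N' : IntermediateField K (AlgebraicClosure K)) (A : GVec ℚ (GK K))
    {F : Type} [Field F] [Algebra K F] (e : F →ₐ[K] AlgebraicClosure K) (he : e.fieldRange ≤ N')
    (x : A.car) (hx : A.Fix (stabE e) x) : x ∈ inv A.act (stabE N'.val) := by
  intro σ hσ
  refine hx σ fun z => ?_
  exact hσ ⟨e z, he ⟨z, rfl⟩⟩

/-- a stable finite-dimensional subspace with all vectors fixed over subfields of `L` -/
theorem exists_stable {L : Type} [Field L] [NumberField L] [Algebra K L] [IsGalois K L] :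
    ∃ N' : IntermediateField K (AlgebraicClosure K), Normal K N' ∧
      (∀ e : K →ₐ[K] AlgebraicClosure K, e.fieldRange ≤ N') ∧
      (∀ (F : IntermediateField K L) (e : F →ₐ[K] AlgebraicClosure K), e.fieldRange ≤ N') ∧
      (∀ e : L →ₐ[K] AlgebraicClosure K, e.fieldRange ≤ N') ∧
      ∀ (A : GVec ℚ (GK K)) (e : L →ₐ[K] AlgebraicClosure K),
        FiniteDimensional ℚ (inv A.act (stabE e)) →
        FiniteDimensional ℚ (inv A.act (stabE N'.val)) := by
  obtain ⟨N', hfd, hnor, ⟨e⟩, hN'⟩ := exists_range K L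
  have hnf : NumberField N' := NumberField.of_module_finite K N'
  let _ : Algebra N' L := (e : N' →ₐ[K] L).toRingHom.toAlgebra
  have htow : IsScalarTower K N' L := IsScalarTower.of_algebraMap_eq fun x => (e.commutes x).symm
  refine ⟨N', hnor, ?_, hN', ?_, fun A e' he' => fin_sub N'.val e' he'⟩
  · rintro e' _ ⟨x, rfl⟩
    have h1 : e'.toRingHom x = algebraMap K (AlgebraicClosure K) x := e'.commutes x
    rw [h1]
    exact N'.algebraMap_mem x
  · rintro e' _ ⟨x, rfl⟩
    have h1 := hN' ⊤ (e'.comp IntermediateField.topEquiv.toAlgHom)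
    exact h1 ⟨IntermediateField.topEquiv.symm x, by simp⟩

end

section
variable {K L : Type} [Field K] [NumberField K] [Field L] [NumberField L] [Algebra K L] {r : ℕ}
  {S : Finset (HeightOneSpectrum (𝓞 K))} {F : Fin r → IntermediateField K L}
  {n : ℕ} {X : Set (MvPolynomial (Fin n) (𝓞 K))} {d i N : ℕ} {m : ℤ} {Ω : Set ℂ}

/-- ranks over the base field -/
theorem rank_base (hF : PrimitiveRelation r S F) (hi : i ≤ 2 * d) (hΩ : IsDom Ω (m : ℂ))
    (hm : (i : ℝ) / 2 < m) {V : GVec ℚ (GK K)}
    (hL : ∃ (e : L →ₐ[K] AlgebraicClosure K), FiniteDimensional ℚ (inv V.act (stabE e)))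
    (h : ∀ k, RankConj X d i N m Ω V (F k)) : RankConj X d i N m Ω V K := by
  have hG := hF.isGalois
  obtain ⟨N', hnor, h1, h2, -, h4⟩ := exists_stable (K := K) (L := L)
  obtain ⟨e, he⟩ := hL
  have hY := inv_stable N' V
  have hfd := h4 V e he
  refine (rankConj_gsub (hY := hY) K fun e x => mem_inv_of_fix N' V e (h1 e) x).1 ?_
  have h' : ∀ k, RankConj X d i N m Ω (gsub V _ hY) (F k) := fun k =>
    (rankConj_gsub (hY := hY) (F k) fun e x => mem_inv_of_fix N' V e (h2 _ e) x).2 (h k)
  have hV : ∀ (F : Type) [Field F] [NumberField F] [Algebra K F]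
      (i : F →ₐ[K] AlgebraicClosure K), FiniteDimensional ℚ (inv (gsub V _ hY).act (stabE i)) :=
    fun _ _ _ _ _ => gsub_fin
  have hV' : ∀ N : IntermediateField K (AlgebraicClosure K), FiniteDimensional K N →
      FiniteDimensional ℚ (fixV (gsub V _ hY).act N.val) := by
    intro N _
    have : NumberField N := NumberField.of_module_finite K N
    rw [fixV_eq]
    exact hV N N.val
  have hlaw := law_cen (X := X) (d := d) (i := i) (N := N) (ρ := (gsub V _ hY).act) hi hΩ (by
    have : ((m : ℂ)).re = (m : ℝ) := Complex.intCast_re m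
    rw [this]
    exact hm) 1 hV'
  have key := hlaw.step K (Fin r) (fun k => ⟨F k⟩) exponent 1 (fun σ => hF.fixn σ) 1
    fun k => (rankConj_iff hV (F k)).1 (h' k)
  rw [mul_one] at key
  exact (rankConj_iff hV K).2 key

/-- heights over the base field -/
theorem height_base (hF : PrimitiveRelation r S F) (hi : i ≤ 2 * d) (hΩ : IsDom Ω (m : ℂ))
    (hsys : ∀ (F : Type) [Field F] [NumberField F] [Algebra K F], ∃ B, Sys X d i N m F B)
    {M : Heights (GK K)} (hM : M.Good) (hL : ∃ p c, M.Reg L p c)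
    (h : ∀ k, HeightConj X d i N m Ω M (F k)) : HeightConj X d i N m Ω M K := by
  have hG := hF.isGalois
  obtain ⟨N', hnor, h1, h2, h3, h4⟩ := exists_stable (K := K) (L := L)
  obtain ⟨p, c, e, hc⟩ := hL
  have hfV : FiniteDimensional ℚ (inv M.V.act (stabE N'.val)) := by
    obtain ⟨-, q, a, a', f, b, P, ha, ha', -⟩ := hc
    obtain ⟨a'', -⟩ := GVec.exists_basis ha
    exact h4 M.V e (Module.Finite.of_basis a'')
  have hfW : FiniteDimensional ℚ (inv M.W.act (stabE N'.val)) := by
    obtain ⟨-, q, a, a', f, b, P, ha, ha', -⟩ := hc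
    obtain ⟨a'', -⟩ := GVec.exists_basis ha'
    exact h4 M.W e (Module.Finite.of_basis a'')
  have hY := inv_stable N' M.V
  have hZ := inv_stable N' M.W
  refine (heightConj_hsub (hY := hY) (hZ := hZ) K
    (fun e x => mem_inv_of_fix N' M.V e (h1 e) x)
    (fun e x => mem_inv_of_fix N' M.W e (h1 e) x)).1 ?_
  have h' : ∀ k, HeightConj X d i N m Ω (hsub M _ hY _ hZ) (F k) := fun k =>
    (heightConj_hsub (hY := hY) (hZ := hZ) (F k)
      (fun e x => mem_inv_of_fix N' M.V e (h2 _ e) x)
      (fun e x => mem_inv_of_fix N' M.W e (h2 _ e) x)).2 (h k)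
  have hM' : (hsub M _ hY _ hZ).Good := hsub_good hM
  have hW : ∀ (F : Type) [Field F] [NumberField F] [Algebra K F]
      (i : F →ₐ[K] AlgebraicClosure K),
      FiniteDimensional ℚ (inv (hsub M _ hY _ hZ).W.act (stabE i)) :=
    fun _ _ _ _ _ => gsub_fin
  have hS := sp_good hM' hW
  have hGM := Spaces.goodM hS
  have hL' : ∃ p c, (hsub M _ hY _ hZ).sp.Reg L p c :=
    ⟨p, c, e, to_sp hM'.comp ((hsub_reg (fun x => mem_inv_of_fix N' M.V e (h3 e) x)
      (fun x => mem_inv_of_fix N' M.W e (h3 e) x) p c).2 hc)⟩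
  refine (heightConj_iff hM' hW K).2 ((Spaces.conj_iff hS.comp.onto).1 (conjQ_base hF hi hΩ hsys hGM
    ((Spaces.ex_iff hS.comp.onto).1 hL') fun k => (Spaces.conj_iff hS.comp.onto).2
      ((heightConj_iff hM' hW (F k)).1 (h' k))))

end

/-- the primitive extensions suffice -/
theorem suffices_primitive (K : Type) [Field K] [NumberField K] {r : ℕ} (hr : Odd r) (h3 : 3 ≤ r)
    (S : ∀ (F : Type) [Field F] [NumberField F] [Algebra K F], Finset (HeightOneSpectrum (𝓞 F))) :
    Suffices (K := K) (fun F' _ _ _ => ∃ (F : Type) (_ : Field F) (_ : NumberField F)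
      (_ : Algebra K F) (_ : Algebra F F') (_ : IsScalarTower K F F'),
        SpecialExtension r (S F) F') := by
  intro F _ _ _
  obtain ⟨L, _, _, _, F', hF⟩ := exists_primitive_relation F hr h3 (S F)
  exact ⟨Fin r, inferInstance, fun k => ⟨F' k⟩, exponent,
    fun j _ _ => ⟨F, inferInstance, inferInstance, inferInstance, inferInstance, inferInstance,
      hF.special j⟩, fun σ => hF.fixn σ⟩

end Pool.Agent.H39.HP
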