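import Pool.Agent.H46.HT.Law
import Pool.Agent.H67.PF.Beil

/-! Heights and central values over one extension with symmetric group. -/

set_option autoImplicit false
set_option linter.unusedSectionVars false

namespace Pool.Agent.H39.HP

open Module NumberField IsDedekindDomain Polynomial Pool.Agent.W353.NF Pool.Agent.W401.Cheb
open Pool.Agent.Q5.BR Pool.Agent.Q5.RG Pool.Agent.Q5.VL
open Pool.Agent.H39.Ht
open Pool.Agent.H67.Primitive
open Pool.Agent.H46.OP (Suffices)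
open Pool.Agent.W353.EF (LFun)
open scoped Classical

section
variable {Γ : Type} [Group Γ]

/-- a stable subspace -/
@[reducible] def gsub (A : GVec ℚ Γ) (Y : Submodule ℚ A.car) (hY : ∀ g, ∀ y ∈ Y, A.act g y ∈ Y) :
    GVec ℚ Γ where
  car := Y
  act :=
    { toFun := fun g => (A.act g).restrict (hY g)
      map_one' := by
        ext y
        change A.act 1 (y : A.car) = y
        rw [map_one]
        rfl
      map_mul' := fun g h => by
        ext y
        change A.act (g * h) (y : A.car) = A.act g (A.act h y)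
        rw [map_mul]
        rfl }

variable {A : GVec ℚ Γ} {Y : Submodule ℚ A.car} {hY : ∀ g, ∀ y ∈ Y, A.act g y ∈ Y}

theorem gsub_fix {Δ : Subgroup Γ} {y : Y} : (gsub A Y hY).Fix Δ y ↔ A.Fix Δ (y : A.car) := by
  constructor
  · intro h g hg
    exact congrArg Subtype.val (h g hg)
  · intro h g hg
    exact Subtype.ext (h g hg)

theorem gsub_basis {Δ : Subgroup Γ} (hΔ : ∀ x, A.Fix Δ x → x ∈ Y) {κ : Type} (a : κ → Y) :
    (gsub A Y hY).IsBasis Δ a ↔ A.IsBasis Δ fun l => (a l : A.car) := by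
  have hspan : ∀ x : A.car, x ∈ Submodule.span ℚ (Set.range fun l => (a l : A.car)) ↔
      ∃ y : Y, y ∈ Submodule.span ℚ (Set.range a) ∧ (y : A.car) = x := by
    intro x
    have h2 : (Set.range fun l => (a l : A.car)) = Y.subtype '' Set.range a := by
      rw [← Set.range_comp]
      rfl
    rw [h2, Submodule.span_image, Submodule.mem_map]
    rfl
  constructor
  · rintro ⟨h1, h2⟩
    refine ⟨h1.map' Y.subtype (Submodule.ker_subtype _), fun x => ?_⟩
    rw [hspan]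
    constructor
    · rintro ⟨y, hy, rfl⟩
      exact gsub_fix.1 ((h2 y).1 hy)
    · intro hx
      exact ⟨⟨x, hΔ x hx⟩, (h2 _).2 (gsub_fix.2 hx), rfl⟩
  · rintro ⟨h1, h2⟩
    refine ⟨LinearIndependent.of_comp Y.subtype h1, fun y => ?_⟩
    constructor
    · intro hy
      exact gsub_fix.2 ((h2 y).1 ((hspan y).2 ⟨y, hy, rfl⟩))
    · intro hy
      obtain ⟨z, hz, hzy⟩ := (hspan y).1 ((h2 y).2 (gsub_fix.1 hy))
      have : z = y := Subtype.ext hzy
      rwa [← this]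

theorem basis_lift {Δ : Subgroup Γ} (hΔ : ∀ x, A.Fix Δ x → x ∈ Y) {κ : Type} {a : κ → A.car}
    (ha : A.IsBasis Δ a) : ∃ a' : κ → Y, (∀ l, (a' l : A.car) = a l) ∧
      (gsub A Y hY).IsBasis Δ a' := by
  have hmem : ∀ l, a l ∈ Y := fun l => hΔ _ ((ha.2 (a l)).1 (Submodule.subset_span ⟨l, rfl⟩))
  exact ⟨fun l => ⟨a l, hmem l⟩, fun _ => rfl, (gsub_basis hΔ _).2 ha⟩

theorem gsub_fin {Δ : Subgroup Γ} [FiniteDimensional ℚ Y] :
    FiniteDimensional ℚ (inv (gsub A Y hY).act Δ) :=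
  inferInstanceAs (FiniteDimensional ℚ (inv (gsub A Y hY).act Δ))

/-- the cycles in stable subspaces -/
@[reducible] noncomputable def hsub (M : Heights Γ) (Y : Submodule ℚ M.V.car)
    (hY : ∀ g, ∀ y ∈ Y, M.V.act g y ∈ Y) (Z : Submodule ℚ M.W.car)
    (hZ : ∀ g, ∀ z ∈ Z, M.W.act g z ∈ Z) : Heights Γ where
  V := gsub M.V Y hY
  W := gsub M.W Z hZ
  B := M.B
  Φ := M.Φ
  U := M.U
  η := M.η
  φ := M.φ
  ht := M.ht.compl₁₂ Y.subtype Z.subtype
  ht_inv := fun g v w => M.ht_inv g v w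

variable {M : Heights Γ} {Y : Submodule ℚ M.V.car} {hY : ∀ g, ∀ y ∈ Y, M.V.act g y ∈ Y}
  {Z : Submodule ℚ M.W.car} {hZ : ∀ g, ∀ z ∈ Z, M.W.act g z ∈ Z}

theorem hsub_reg {Δ : Subgroup Γ} (h1 : ∀ x, M.V.Fix Δ x → x ∈ Y) (h2 : ∀ x, M.W.Fix Δ x → x ∈ Z)
    (p : ℕ) (c : ℝ) : (hsub M Y hY Z hZ).IsReg Δ p c ↔ M.IsReg Δ p c := by
  constructor
  · rintro ⟨h0, q, a, a', f, b, P, ha, ha', hf, hb, hP, hc⟩
    exact ⟨h0, q, fun l => (a l : M.V.car), fun l => (a' l : M.W.car), f, b, P,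
      (gsub_basis h1 a).1 ha, (gsub_basis h2 a').1 ha', hf, hb, hP, hc⟩
  · rintro ⟨h0, q, a, a', f, b, P, ha, ha', hf, hb, hP, hc⟩
    obtain ⟨a₁, e₁, ha₁⟩ := basis_lift (hY := hY) h1 ha
    obtain ⟨a₂, e₂, ha₂⟩ := basis_lift (hY := hZ) h2 ha'
    refine ⟨h0, q, a₁, a₂, f, b, P, ha₁, ha₂, hf, hb, hP, ?_⟩
    rw [← hc]
    congr 2
    ext i j
    change M.ht (a₁ i : M.V.car) (a₂ j : M.W.car) = M.ht (a i) (a' j)
    rw [e₁, e₂]

end

section
variable {K : Type} [Field K] [NumberField K] {n : ℕ} {X : Set (MvPolynomial (Fin n) (𝓞 K))}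
  {d i N : ℕ} {m : ℤ} {Ω : Set ℂ}

theorem hsub_good {M : Heights (GK K)} {Y : Submodule ℚ M.V.car}
    {hY : ∀ g, ∀ y ∈ Y, M.V.act g y ∈ Y} {Z : Submodule ℚ M.W.car}
    {hZ : ∀ g, ∀ z ∈ Z, M.W.act g z ∈ Z} (hM : M.Good) : (hsub M Y hY Z hZ).Good where
  comp :=
    { indep := hM.comp.indep
      cycles := fun z => by
        refine Set.Finite.of_finite_image (f := (Subtype.val : Z → M.W.car)) ?_
          Subtype.val_injective.injOn
        refine (hM.comp.cycles (z : M.W.car)).subset ?_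
        rintro _ ⟨_, ⟨g, rfl⟩, rfl⟩
        exact ⟨g, rfl⟩ }
  good := fun F _ _ _ e =>
    { betti := (hM.good F e).betti
      span := (hM.good F e).span
      deR := (hM.good F e).deR }

/-- the conjecture over `F` for `M` and for the smaller spaces -/
theorem heightConj_hsub {M : Heights (GK K)} {Y : Submodule ℚ M.V.car}
    {hY : ∀ g, ∀ y ∈ Y, M.V.act g y ∈ Y} {Z : Submodule ℚ M.W.car}
    {hZ : ∀ g, ∀ z ∈ Z, M.W.act g z ∈ Z} (F : Type) [Field F] [NumberField F] [Algebra K F]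
    (h1 : ∀ e : F →ₐ[K] AlgebraicClosure K, ∀ x, M.V.Fix (stabE e) x → x ∈ Y)
    (h2 : ∀ e : F →ₐ[K] AlgebraicClosure K, ∀ x, M.W.Fix (stabE e) x → x ∈ Z) :
    HeightConj X d i N m Ω (hsub M Y hY Z hZ) F ↔ HeightConj X d i N m Ω M F := by
  have hreg : ∀ p c, (hsub M Y hY Z hZ).Reg F p c ↔ M.Reg F p c := by
    intro p c
    exact exists_congr fun e => hsub_reg (h1 e) (h2 e) p c
  unfold HeightConj Heights.Central
  simp only [hreg]

theorem rankConj_gsub {V : GVec ℚ (GK K)} {Y : Submodule ℚ V.car}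
    {hY : ∀ g, ∀ y ∈ Y, V.act g y ∈ Y} (F : Type) [Field F] [NumberField F] [Algebra K F]
    (h1 : ∀ e : F →ₐ[K] AlgebraicClosure K, ∀ x, V.Fix (stabE e) x → x ∈ Y) :
    RankConj X d i N m Ω (gsub V Y hY) F ↔ RankConj X d i N m Ω V F := by
  constructor
  · rintro ⟨e, p, a, ha, h⟩
    exact ⟨e, p, fun l => (a l : V.car), (gsub_basis (h1 e) a).1 ha, h⟩
  · rintro ⟨e, p, a, ha, h⟩
    obtain ⟨a', -, ha'⟩ := basis_lift (hY := hY) (h1 e) ha
    exact ⟨e, p, a', ha', h⟩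

end

end Pool.Agent.H39.HP
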